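import Pool.Agent.H21.BS.Targets

/-!
# A Bessel inequality over many levels: intermediate statements
-/

set_option autoImplicit false

open Finset Pool.Agent.H6.N4D

namespace Pool.Agent.H21.BS

/-- products, conjugates and shifts of weights of bounded variation -/
def T_BVL : Prop :=
  (∀ (v w : ℝ) (a N : ℕ) (g h : ℕ → ℂ), BV v a N g → BV w a N h →
    BV (v + w) a N fun n => g n * h n) ∧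
  (∀ (v : ℝ) (a N : ℕ) (g : ℕ → ℂ), BV v a N g → BV v a N fun n => starRingEnd ℂ (g n)) ∧
  (∀ (v : ℝ) (a N M o : ℕ) (g : ℕ → ℂ), BV v a N g → o + M ≤ N → BV v a M fun n => g (n + o))

/-- the expansion of the four-fold product of the dual function -/
def T_EXQ : Prop := ∀ (W : ℝ) (P : ℕ) (κ : ℝ) (V : Cell) (s : ℕ) (o : Fin 4 → ℕ), V.Ok W P κ →
  (∀ j, o j < s) → s ≤ V.N → ∃ (C : (Fin 4 → ℕ) → ℂ) (G : (Fin 4 → ℕ) → ℕ → ℂ),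
    (∀ q ∈ Fintype.piFinset (fun _ : Fin 4 => V.Q), ‖C q‖ ≤ 81 ∧ BV 40 V.a (V.N - s) (G q)) ∧
    ∀ x : ℕ, V.om (V.a + x + o 0) * starRingEnd ℂ (V.om (V.a + x + o 1)) *
      (starRingEnd ℂ (V.om (V.a + x + o 2)) * V.om (V.a + x + o 3)) =
      ∑ q ∈ Fintype.piFinset (fun _ : Fin 4 => V.Q), (∏ j, 1 / (q j : ℂ)) * C q *
        ((∏ j, DD (q j) (V.a + x + o j)) *
          (ee ((V.α (q 0) - V.α (q 1) - V.α (q 2) + V.α (q 3)) * ((V.a + x : ℕ) : ℝ)) *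
            G q (V.a + x)))

/-- one quadruple which is not bad -/
def T_PR4 : Prop := ∀ (N a M : ℕ) (κ : ℝ) (α : ℕ → ℝ) (q o : Fin 4 → ℕ) (G : ℕ → ℂ),
  (∀ j, (q j).Prime) → (∀ j, q j ^ 200 ≤ N) → Function.Injective q → 0 < κ → κ ≤ 1 →
  1 ≤ κ ^ 2 * N → ¬ Bad N κ α q → BV 40 a M G →
  ‖∑ x ∈ range M, (∏ j, DD (q j) (a + x + o j)) *
    (ee ((α (q 0) - α (q 1) - α (q 2) + α (q 3)) * ((a + x : ℕ) : ℝ)) * G (a + x))‖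
      ≤ 100 * (κ * N)

open Classical in
/-- the mass of the quadruples with equal entries -/
def T_TUP : Prop := ∀ (Q : Finset ℕ) (W : ℝ) (P : ℕ), (∀ q ∈ Q, P ≤ q) → 1 ≤ P →
  ∑ q ∈ Q, 1 / (q : ℝ) ≤ W →
  ∑ q ∈ (Fintype.piFinset fun _ : Fin 4 => Q).filter (fun q => ¬ Function.Injective q),
    ∏ j, 1 / (q j : ℝ) ≤ 6 * W ^ 3 / P

/-- four-fold products at arbitrary points -/
def T_HOL : Prop := ∀ (W : ℝ) (P : ℕ) (κ : ℝ) (V : Cell) (s : ℕ) (o : Fin 4 → ℕ), V.Ok W P κ →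
  (∀ j, o j ≤ s) → s ≤ V.N →
  ∑ x ∈ range (V.N - s), ∏ j, ‖V.om (V.a + x + o j)‖ ≤ 2000 * (4 + W) ^ 4 * V.N

/-- bad pairs -/
def Bad2 (N : ℕ) (κ : ℝ) (α : ℕ → ℝ) (q p : ℕ) : Prop := q ≠ p ∧
  ∃ b c : ℤ, ¬ ((q : ℤ) ∣ b) ∧ ¬ ((p : ℤ) ∣ c) ∧
    nd (α q - α p - (b : ℝ) / q - (c : ℝ) / p) ≤ 1 / (2 * κ * N)

open Classical in
/-- the mass of the bad pairs -/
noncomputable def badmass2 (N : ℕ) (κ : ℝ) (Q : Finset ℕ) (α : ℕ → ℝ) : ℝ :=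
  ∑ q ∈ Q, ∑ p ∈ Q, if Bad2 N κ α q p then 1 / (q : ℝ) * (1 / p) else 0

/-- few bad quadruples, few bad pairs -/
def T_BP : Prop := ∀ (N P : ℕ) (κ W : ℝ) (Q : Finset ℕ) (α : ℕ → ℝ), 0 < κ → 0 < N →
  (∀ q ∈ Q, P ≤ q) → 1 ≤ P → ∑ q ∈ Q, 1 / (q : ℝ) ≤ W →
  badmass2 N κ Q α ^ 2 ≤ badmass N κ Q α + 6 * W ^ 3 / P

/-- two primes at the same point -/
def T_PR2 : Prop := ∀ (N a : ℕ) (κ : ℝ) (α : ℕ → ℝ) (q p : ℕ), q.Prime → p.Prime →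
  q ^ 200 ≤ N → p ^ 200 ≤ N → 0 < κ → κ ≤ 1 → 1 ≤ κ ^ 2 * N →
  (∑ x ∈ range N, ‖DD q (a + x)‖ ^ 2 ≤ (q : ℝ) * N) ∧
  (q ≠ p → ∑ x ∈ range N, ‖DD q (a + x)‖ * ‖DD p (a + x)‖ ≤ 8 * N) ∧
  (q ≠ p → ¬ Bad2 N κ α q p → ∀ G : ℕ → ℂ, BV 20 a N G →
    ‖∑ x ∈ range N, DD q (a + x) * DD p (a + x) *
      (ee ((α q - α p) * ((a + x : ℕ) : ℝ)) * G (a + x))‖ ≤ 100 * (κ * N))

/-- the correlation on a window of length `s ^ 2` against those on the intervals of length `s` -/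
def T_SB1 : Prop := ∀ (a s : ℕ) (θ : ℝ) (F w : ℕ → ℂ), 1 ≤ s → BV 10 a (s ^ 2) w →
  ‖av a (s ^ 2) fun n => F n * starRingEnd ℂ (ee (θ * n) * w n)‖ ^ 2 ≤
    2 / (s : ℝ) ^ 2 * ∑ x ∈ range (s ^ 2 - s),
      ‖(∑ y ∈ range s, F (a + x + y) * ee (-(θ * y))) / s‖ ^ 2 +
    120 / (s : ℝ) * ((∑ x ∈ range (s ^ 2), ‖F (a + x)‖ ^ 2) / (s : ℝ) ^ 2)

/-! ## Systems -/

/-- the dual function of level `i` with the coefficients `c` -/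
noncomputable def Sys.Om (S : Sys) (c : ℕ → ℕ → ℕ → ℂ) (i n : ℕ) : ℂ :=
  (S.V i ((n - S.U) / S.N i) (c i ((n - S.U) / S.N i))).om n

/-- bookkeeping of the windows -/
def T_LVL : Prop := ∀ (S : Sys) (W : ℝ), S.Ok W →
  (∀ i ≤ S.K, 0 < S.N i ∧ S.s 0 ≤ S.s i ∧ S.cnt i * S.N i = S.L ∧ 0 < S.L ∧
    ∀ h : ℕ → ℂ, ∑ x ∈ range S.L, h (S.U + x) =
      ∑ k ∈ range (S.cnt i), ∑ x ∈ range (S.N i), h (S.U + k * S.N i + x)) ∧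
  (∀ i j, i ≤ j → j ≤ S.K → ∃ T : ℕ, S.N j = T * S.s i ^ 2 ∧ S.cnt i = S.cnt j * T) ∧
  (∀ i j, i < j → j ≤ S.K → S.κ j * S.s i ≤ 1 ∧ S.s i ≤ S.P j) ∧
  (∀ i, 1 ≤ i → i ≤ S.K → ∀ k < S.cnt i, ∀ c : ℕ → ℂ, (∀ q, ‖c q‖ ≤ 3) →
    (S.V i k c).Ok W (S.P i) (S.κ i)) ∧
  (∀ c i k x, i ≤ S.K → k < S.cnt i → x < S.N i →
    S.Om c i (S.U + k * S.N i + x) = (S.V i k (c i k)).om (S.U + k * S.N i + x))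

/-- the norm of the dual function of one level -/
def T_OM1 : Prop := ∀ W : ℝ, ∃ C : ℝ, 0 ≤ C ∧ ∀ (S : Sys) (c : ℕ → ℕ → ℕ → ℂ), S.Ok W →
  (∀ i k q, ‖c i k q‖ ≤ 3) → ∀ i, 1 ≤ i → i ≤ S.K →
  avr S.U S.L (fun n => ‖S.Om c i n‖ ^ 2) ≤
    (S.N i : ℝ) / S.L * ∑ k ∈ range (S.cnt i), ∑ q ∈ S.Q i, 1 / (q : ℝ) * ‖c i k q‖ ^ 2 +
      C * (S.s 0 : ℝ) ^ (-(1 / 5) : ℝ)

/-- the inner product of two levels -/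
def T_OM2 : Prop := ∀ W : ℝ, ∃ C : ℝ, 0 ≤ C ∧ ∀ (S : Sys) (c : ℕ → ℕ → ℕ → ℂ), S.Ok W →
  (∀ i k q, ‖c i k q‖ ≤ 3) → ∀ i j, 1 ≤ i → i < j → j ≤ S.K →
  ‖av S.U S.L fun n => S.Om c i n * starRingEnd ℂ (S.Om c j n)‖ ≤
    C * (S.s 0 : ℝ) ^ (-(1 / 5) : ℝ)

/-- the inner product with a sum of exponentials on the windows of level 0 -/
def T_OM3 : Prop := ∀ W : ℝ, ∃ C : ℝ, 0 ≤ C ∧ ∀ (S : Sys) (c : ℕ → ℕ → ℕ → ℂ) (R : ℕ)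
  (F : ℕ → ℂ), S.Ok W → (∀ i k q, ‖c i k q‖ ≤ 3) → S.Exps R F → ∀ i, 1 ≤ i → i ≤ S.K →
  ‖av S.U S.L fun n => F n * starRingEnd ℂ (S.Om c i n)‖ ≤
    C * R * (S.s 0 : ℝ) ^ (-(1 / 5) : ℝ)

/-- the coefficients of a function -/
noncomputable def Sys.cf (S : Sys) (f : ℕ → ℂ) (i k q : ℕ) : ℂ :=
  if 1 ≤ i ∧ i ≤ S.K ∧ k < S.cnt i ∧ q ∈ S.Q i then
    av (S.U + k * S.N i) (S.N i) fun n => f n * starRingEnd ℂ ((S.V i k 0).u q n) else 0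

/-- duality -/
def T_OM4 : Prop := ∀ (W : ℝ) (S : Sys) (f : ℕ → ℂ), S.Ok W → (∀ n, ‖f n‖ ≤ 1) →
  (∀ i k q, ‖S.cf f i k q‖ ≤ 3) ∧ ∀ i, 1 ≤ i → i ≤ S.K →
    (∑ k ∈ range (S.cnt i), ∑ q ∈ S.Q i, 1 / (q : ℝ) * ‖S.cf f i k q‖ ^ 2 =
      ∑ k ∈ range (S.cnt i), ∑ q ∈ S.Q i, 1 / (q : ℝ) * S.Z f i k q ^ 2) ∧
    av S.U S.L (fun n => f n * starRingEnd ℂ (S.Om (S.cf f) i n)) =
      (((S.N i : ℝ) / S.L * ∑ k ∈ range (S.cnt i), ∑ q ∈ S.Q i,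
        1 / (q : ℝ) * S.Z f i k q ^ 2 : ℝ) : ℂ)

end Pool.Agent.H21.BS
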