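import Pool.Agent.H21.BS.TB
import Pool.Agent.H91.BS.ESM
import Pool.Agent.H64.BS.CNT
import Pool.Agent.H81.BS.PRD
import Pool.Agent.H97.BS.CR1
import Pool.Agent.H89.BS.MOM
import Pool.Agent.H68.BSQ.OMB
import Pool.Agent.H11.BS.M4
import Pool.Agent.H38.BS.BVL
import Pool.Agent.H1.BES.EXQ
import Pool.Agent.H38.BS.PR4
import Pool.Agent.H76.BS.TUP
import Pool.Agent.H36.BS.FPT
import Pool.Agent.H1.BES.HOL
import Pool.Agent.H13.BES.VDC
import Pool.Agent.H35.BS.SPX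
import Pool.Agent.H8.BS.BP
import Pool.Agent.H81.BS.PR2
import Pool.Agent.H72.BS.DIA
import Pool.Agent.H73.BS.SB1
import Pool.Agent.H17.BS.SUB
import Pool.Agent.H67.BS.CRS
import Pool.Agent.H81.BS.FIP
import Pool.Agent.H54.BS.LVL
import Pool.Agent.H72.BS.OM1
import Pool.Agent.H79.BS.OM2
import Pool.Agent.H5.BS.OM3
import Pool.Agent.H46.BES.OM4
import Pool.Agent.H8.BS.BES
import Pool.Agent.H64.BS.NC0

/-!
# The Bessel inequality over many levels: assembly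
-/

set_option autoImplicit false

namespace Pool.Agent.H21.BS

theorem cnt : T_CNT := Pool.Agent.H64.BS.pf_CNT
theorem esm : T_ESM := Pool.Agent.H91.BS.pf_ESM
theorem dqf : T_DQF := Pool.Agent.H91.BS.pf_DQF
theorem prd : T_PRD := Pool.Agent.H81.BS.pf_PRD esm dqf
theorem cr1 : T_CR1 := Pool.Agent.H97.BS.pf_CR1 cnt
theorem mom : T_MOM := Pool.Agent.H89.BS.pf_MOM cnt
theorem omb : T_OMB := Pool.Agent.H68.BSQ.pf_OMB
theorem m4 : T_M4 := Pool.Agent.H11.BS.pf_M4 omb mom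
theorem bvl : T_BVL := Pool.Agent.H38.BS.pf_BVL
theorem exq : T_EXQ := Pool.Agent.H1.BES.pf_EXQ bvl
theorem pr4 : T_PR4 := Pool.Agent.H38.BS.pf_PR4 prd
theorem tup : T_TUP := Pool.Agent.H76.BS.pf_TUP
theorem fpt : T_FPT := Pool.Agent.H36.BS.pf_FPT exq pr4 tup cr1
theorem hol : T_HOL := Pool.Agent.H1.BES.pf_HOL m4
theorem vdc : T_VDC := Pool.Agent.H13.BES.pf_VDC
theorem spx : T_SPX := Pool.Agent.H35.BS.pf_SPX vdc fpt hol
theorem bp : T_BP := Pool.Agent.H8.BS.pf_BP tup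
theorem pr2 : T_PR2 := Pool.Agent.H81.BS.pf_PR2 prd cnt
theorem dia : T_DIA := Pool.Agent.H72.BS.pf_DIA bvl bp pr2
theorem sb1 : T_SB1 := Pool.Agent.H73.BS.pf_SB1
theorem sub : T_SUB := Pool.Agent.H17.BS.pf_SUB sb1 spx m4
theorem crs : T_CRS := Pool.Agent.H67.BS.pf_CRS sub dqf
theorem fip : T_FIP := Pool.Agent.H81.BS.pf_FIP sub
theorem lvl : T_LVL := Pool.Agent.H54.BS.pf_LVL
theorem om1 : T_OM1 := Pool.Agent.H72.BS.pf_OM1 lvl dia
theorem om2 : T_OM2 := Pool.Agent.H79.BS.pf_OM2 lvl crs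
theorem om3 : T_OM3 := Pool.Agent.H5.BS.pf_OM3 lvl fip
theorem om4 : T_OM4 := Pool.Agent.H46.BES.pf_OM4 lvl cnt

/-- the Bessel inequality over all levels -/
theorem bes : T_BES := Pool.Agent.H8.BS.pf_BES om1 om2 om3 om4 lvl

/-- constant frequencies have no bad quadruples -/
theorem nc0 : T_NC0 := Pool.Agent.H64.BS.pf_NC0

end Pool.Agent.H21.BS
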