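import Pool.Agent.H6.N4D.Defs

/-!
# A Bessel inequality over many levels: definitions

Windows `[a, a + N)`, the centred divisibility functions `DD q n = q 1_(q | n) - 1`, dual functions
`om = sum over q of (1/q) c_q DD q ee (α_q n) g_q`, and systems of nested windows.
-/

set_option autoImplicit false

open Finset Pool.Agent.H6.N4D

namespace Pool.Agent.H21.BS

/-- the centred divisibility function -/
noncomputable def DD (q n : ℕ) : ℂ := (if q ∣ n then (q : ℂ) else 0) - 1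

/-- its majorant -/
noncomputable def MD (q n : ℕ) : ℝ := (if q ∣ n then (q : ℝ) else 0) + 1

/-- the average over the window `[a, a + N)` -/
noncomputable def av (a N : ℕ) (f : ℕ → ℂ) : ℂ := (∑ x ∈ range N, f (a + x)) / N

/-- the average of a real function over the window `[a, a + N)` -/
noncomputable def avr (a N : ℕ) (f : ℕ → ℝ) : ℝ := (∑ x ∈ range N, f (a + x)) / N

/-- weights of norm at most one and of variation at most `v` on the window `[a, a + N]` -/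
def BV (v : ℝ) (a N : ℕ) (g : ℕ → ℂ) : Prop :=
  (∀ n, ‖g n‖ ≤ 1) ∧ ∑ x ∈ range N, ‖g (a + x + 1) - g (a + x)‖ ≤ v

/-- the quadruple `q` is bad for the frequencies `α` -/
def Bad (N : ℕ) (κ : ℝ) (α : ℕ → ℝ) (q : Fin 4 → ℕ) : Prop :=
  ∃ b : Fin 4 → ℤ, (∀ j, ¬ ((q j : ℤ) ∣ b j)) ∧
    nd (α (q 0) - α (q 1) - α (q 2) + α (q 3) - ∑ j, (b j : ℝ) / q j) ≤ 1 / (κ * N)

open Classical in
/-- the mass of the bad quadruples of distinct elements of `Q` -/
noncomputable def badmass (N : ℕ) (κ : ℝ) (Q : Finset ℕ) (α : ℕ → ℝ) : ℝ :=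
  ∑ q ∈ (Fintype.piFinset fun _ : Fin 4 => Q).filter
    (fun q => Function.Injective q ∧ Bad N κ α q), ∏ j, 1 / (q j : ℝ)

/-- a window with primes, frequencies, weights and coefficients -/
structure Cell where
  a : ℕ
  N : ℕ
  Q : Finset ℕ
  α : ℕ → ℝ
  g : ℕ → ℕ → ℂ
  c : ℕ → ℂ

namespace Cell

/-- the arithmetical conditions on a window; `P` is a lower bound of the primes, `W` an upper bound
of the sum of their reciprocals -/
structure Ok (W : ℝ) (P : ℕ) (κ : ℝ) (V : Cell) : Prop where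
  pr : ∀ q ∈ V.Q, q.Prime
  lo : ∀ q ∈ V.Q, P ≤ q
  up : ∀ q ∈ V.Q, q ^ 200 ≤ V.N
  wt : ∑ q ∈ V.Q, 1 / (q : ℝ) ≤ W
  P1 : 1 ≤ P
  k0 : 0 < κ
  k1 : κ ≤ 1
  k2 : 1 ≤ κ ^ 2 * V.N
  bv : ∀ q ∈ V.Q, BV 10 V.a V.N (V.g q)
  nc : badmass V.N κ V.Q V.α ≤ κ
  cb : ∀ q ∈ V.Q, ‖V.c q‖ ≤ 3

/-- the test function of the prime `q` -/
noncomputable def u (V : Cell) (q n : ℕ) : ℂ := DD q n * ee (V.α q * n) * V.g q n

/-- the dual function of the window -/
noncomputable def om (V : Cell) (n : ℕ) : ℂ := ∑ q ∈ V.Q, 1 / (q : ℂ) * V.c q * V.u q n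

end Cell

/-- a system of nested windows: the windows of level `i` are
`[U + k (s i) ^ 2, U + (k + 1) (s i) ^ 2)`, the interval is `[U, U + T (s K) ^ 2)` -/
structure Sys where
  K : ℕ
  T : ℕ
  U : ℕ
  s : ℕ → ℕ
  Q : ℕ → Finset ℕ
  κ : ℕ → ℝ
  P : ℕ → ℕ
  α : ℕ → ℕ → ℕ → ℝ
  g : ℕ → ℕ → ℕ → ℕ → ℂ

namespace Sys

variable (S : Sys)

/-- the length of the windows of level `i` -/
def N (i : ℕ) : ℕ := S.s i ^ 2

/-- the length of the interval -/
def L : ℕ := S.T * S.s S.K ^ 2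

/-- the number of the windows of level `i` -/
def cnt (i : ℕ) : ℕ := S.L / S.N i

/-- the window number `k` of level `i` with the coefficients `c` -/
def V (i k : ℕ) (c : ℕ → ℂ) : Cell := ⟨S.U + k * S.N i, S.N i, S.Q i, S.α i k, S.g i k, c⟩

/-- the conditions on a system -/
structure Ok (W : ℝ) : Prop where
  T1 : 1 ≤ S.T
  s1 : ∀ i ≤ S.K, 1 ≤ S.s i
  dv : ∀ i < S.K, S.s i ∣ S.s (i + 1)
  ok : ∀ i, 1 ≤ i → i ≤ S.K → ∀ k < S.cnt i, (S.V i k 0).Ok W (S.P i) (S.κ i)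
  ks : ∀ i < S.K, S.κ (i + 1) * S.s i ≤ 1
  Ps : ∀ i < S.K, S.s i ≤ S.P (i + 1)

/-- the correlation of `f` with the test function of the prime `q` on the window `k` of level `i` -/
noncomputable def Z (f : ℕ → ℂ) (i k q : ℕ) : ℝ :=
  ‖av (S.U + k * S.N i) (S.N i) fun n => f n * starRingEnd ℂ ((S.V i k 0).u q n)‖

/-- the total energy of the correlations -/
noncomputable def E (f : ℕ → ℂ) : ℝ :=
  ∑ i ∈ Icc 1 S.K, (S.N i : ℝ) / S.L * ∑ k ∈ range (S.cnt i), ∑ q ∈ S.Q i,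
    1 / (q : ℝ) * S.Z f i k q ^ 2

/-- `F` is a sum of `R` exponentials with coefficients of norm at most one on every window of
level 0 -/
def Exps (R : ℕ) (F : ℕ → ℂ) : Prop :=
  ∀ k < S.cnt 0, ∃ (b : Fin R → ℂ) (β : Fin R → ℝ), (∀ r, ‖b r‖ ≤ 1) ∧
    ∀ x < S.N 0, F (S.U + k * S.N 0 + x) = ∑ r, b r * ee (β r * ((S.U + k * S.N 0 + x : ℕ) : ℝ))

end Sys

end Pool.Agent.H21.BS
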