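import Pool.Agent.H21.BS.Defs

/-!
# A Bessel inequality over many levels: statements
-/

set_option autoImplicit false

open Finset Pool.Agent.H6.N4D

namespace Pool.Agent.H21.BS

/-! ## Exponential sums and counting -/

/-- exponential sums with weights of bounded variation -/
def T_ESM : Prop := ∀ (δ v : ℝ) (a M : ℕ) (G : ℕ → ℂ), 0 < nd δ → BV v a M G →
  ‖∑ x ∈ range M, ee (δ * ((a + x : ℕ) : ℝ)) * G (a + x)‖ ≤ (1 + v) / (2 * nd δ)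

/-- the Fourier expansion of the centred divisibility function -/
def T_DQF : Prop := ∀ q n : ℕ, 1 ≤ q → DD q n = ∑ b ∈ Ico 1 q, ee ((b : ℝ) / q * n)

/-- the number of points of an interval in one class -/
def T_CNT : Prop := ∀ (N m : ℕ) (X : Finset ℕ), 1 ≤ m → X ⊆ range N →
  (∀ x ∈ X, ∀ y ∈ X, (m : ℤ) ∣ (x : ℤ) - y) → (X.card : ℝ) ≤ (N : ℝ) / m + 1

/-- products of centred divisibility functions of distinct primes against an exponential whose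
frequency is not close to a fraction with denominator exactly the product -/
def T_PRD : Prop := ∀ (r : ℕ) (q o : Fin r → ℕ) (γ δ v : ℝ) (a M : ℕ) (G : ℕ → ℂ),
  (∀ j, (q j).Prime) → Function.Injective q → 0 < δ → BV v a M G →
  (∀ b : Fin r → ℤ, (∀ j, ¬ ((q j : ℤ) ∣ b j)) → δ ≤ nd (γ + ∑ j, (b j : ℝ) / q j)) →
  ‖∑ x ∈ range M, (∏ j, DD (q j) (a + x + o j)) * (ee (γ * ((a + x : ℕ) : ℝ)) * G (a + x))‖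
    ≤ (1 + v) * (1 / (2 * δ) + (∏ j, (q j : ℝ)) ^ 2)

/-- the trivial bound, with possibly equal primes -/
def T_CR1 : Prop := ∀ (q o : Fin 4 → ℕ) (P a N : ℕ), (∀ j, (q j).Prime) → (∀ j, P ≤ q j) →
  (∀ j, q j ^ 200 ≤ N) → Function.Injective o → (∀ j, o j < P) →
  ∑ x ∈ range N, ∏ j, MD (q j) (a + x + o j) ≤ 32 * N

/-- the fourth moment of the number of prime divisors in `Q` -/
def T_MOM : Prop := ∀ (Q : Finset ℕ) (W : ℝ) (a N : ℕ), (∀ q ∈ Q, q.Prime) →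
  (∀ q ∈ Q, q ^ 200 ≤ N) → 1 ≤ N → ∑ q ∈ Q, 1 / (q : ℝ) ≤ W →
  ∑ x ∈ range N, (((Q.filter fun q => q ∣ a + x).card : ℝ)) ^ 4 ≤ 2 * (4 + W) ^ 4 * N

/-! ## One window -/

/-- pointwise bound of the dual function -/
def T_OMB : Prop := ∀ (W : ℝ) (P : ℕ) (κ : ℝ) (V : Cell), V.Ok W P κ → ∀ n : ℕ,
  ‖V.om n‖ ≤ 3 * (((V.Q.filter fun q => q ∣ n).card : ℝ) + W)

/-- the fourth moment of the dual function -/
def T_M4 : Prop := ∀ (W : ℝ) (P : ℕ) (κ : ℝ) (V : Cell), V.Ok W P κ →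
  ∑ x ∈ range V.N, ‖V.om (V.a + x)‖ ^ 4 ≤ 2000 * (4 + W) ^ 4 * V.N

/-- the mean square of the dual function -/
def T_DIA : Prop := ∀ W : ℝ, ∃ C : ℝ, 0 ≤ C ∧ ∀ (P : ℕ) (κ : ℝ) (V : Cell), V.Ok W P κ →
  ∑ x ∈ range V.N, ‖V.om (V.a + x)‖ ^ 2
    ≤ V.N * (∑ q ∈ V.Q, 1 / (q : ℝ) * ‖V.c q‖ ^ 2 + C * Real.sqrt (κ + 1 / P))

/-- the four point function at distinct points -/
def T_FPT : Prop := ∀ W : ℝ, ∃ C : ℝ, 0 ≤ C ∧ ∀ (P : ℕ) (κ : ℝ) (V : Cell) (s : ℕ)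
  (o : Fin 4 → ℕ), V.Ok W P κ → Function.Injective o → (∀ j, o j < s) → s ≤ P → s ≤ V.N →
  ‖∑ x ∈ range (V.N - s), V.om (V.a + x + o 0) * starRingEnd ℂ (V.om (V.a + x + o 1)) *
    (starRingEnd ℂ (V.om (V.a + x + o 2)) * V.om (V.a + x + o 3))‖ ≤ C * (κ + 1 / P) * V.N

/-- the correlations of a function on an interval bound all its Fourier coefficients -/
def T_VDC : Prop := ∀ (s : ℕ) (F : ℕ → ℂ) (θ : ℝ), 1 ≤ s →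
  ‖(∑ y ∈ range s, F y * ee (-(θ * y))) / s‖ ^ 4 ≤
    4 / (s : ℝ) * ∑ h ∈ range s, ‖(∑ y ∈ range (s - h), F y * starRingEnd ℂ (F (y + h))) / s‖ ^ 2

/-- the largest Fourier coefficients on short intervals -/
def T_SPX : Prop := ∀ W : ℝ, ∃ C : ℝ, 0 ≤ C ∧ ∀ (P : ℕ) (κ : ℝ) (V : Cell) (s : ℕ) (θ : ℕ → ℝ),
  V.Ok W P κ → 1 ≤ s → s ≤ P → s ≤ V.N →
  ∑ x ∈ range (V.N - s), ‖(∑ y ∈ range s, V.om (V.a + x + y) * ee (-(θ x * y))) / s‖ ^ 4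
    ≤ C * (1 / s + κ + 1 / P) * V.N

/-- the largest correlations with exponentials with weights, on the subwindows of length `s ^ 2` -/
def T_SUB : Prop := ∀ W : ℝ, ∃ C : ℝ, 0 ≤ C ∧ ∀ (P : ℕ) (κ : ℝ) (V : Cell) (s T : ℕ) (θ : ℕ → ℝ)
  (w : ℕ → ℕ → ℂ), V.Ok W P κ → 1 ≤ s → s ≤ P → κ * s ≤ 1 → V.N = T * s ^ 2 →
  (∀ k < T, BV 10 (V.a + k * s ^ 2) (s ^ 2) (w k)) →
  ∑ k ∈ range T, ‖av (V.a + k * s ^ 2) (s ^ 2) fun n =>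
    V.om n * starRingEnd ℂ (ee (θ k * n) * w k n)‖ ^ 2 ≤ C * T / Real.sqrt s

/-! ## Two windows -/

/-- inner product with dual functions on the subwindows of length `s ^ 2` -/
def T_CRS : Prop := ∀ W : ℝ, ∃ C : ℝ, 0 ≤ C ∧ ∀ (P : ℕ) (κ : ℝ) (V : Cell) (s T : ℕ)
  (Q : Finset ℕ) (v : ℕ → Cell), V.Ok W P κ → 1 ≤ s → s ≤ P → κ * s ≤ 1 → V.N = T * s ^ 2 →
  (∀ k < T, (v k).a = V.a + k * s ^ 2 ∧ (v k).N = s ^ 2 ∧ (v k).Q = Q ∧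
    (∀ q ∈ Q, q.Prime ∧ q ^ 200 ≤ s ^ 2 ∧ BV 10 (v k).a (v k).N ((v k).g q) ∧
      ‖(v k).c q‖ ≤ 3)) →
  ‖∑ k ∈ range T, ∑ x ∈ range (s ^ 2), (v k).om (V.a + k * s ^ 2 + x) *
    starRingEnd ℂ (V.om (V.a + k * s ^ 2 + x))‖ ≤ C * V.N * (s : ℝ) ^ (-(1 / 5) : ℝ)

/-- inner product with a function which is a sum of `R` exponentials on every subwindow -/
def T_FIP : Prop := ∀ W : ℝ, ∃ C : ℝ, 0 ≤ C ∧ ∀ (P : ℕ) (κ : ℝ) (V : Cell) (s T R : ℕ)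
  (F : ℕ → ℂ), V.Ok W P κ → 1 ≤ s → s ≤ P → κ * s ≤ 1 → V.N = T * s ^ 2 →
  (∀ k < T, ∃ (b : Fin R → ℂ) (β : Fin R → ℝ), (∀ r, ‖b r‖ ≤ 1) ∧ ∀ x < s ^ 2,
    F (V.a + k * s ^ 2 + x) = ∑ r, b r * ee (β r * ((V.a + k * s ^ 2 + x : ℕ) : ℝ))) →
  ‖∑ x ∈ range V.N, F (V.a + x) * starRingEnd ℂ (V.om (V.a + x))‖
    ≤ C * R * V.N * (s : ℝ) ^ (-(1 / 5) : ℝ)

/-! ## The theorem -/

/-- the Bessel inequality over all levels -/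
def T_BES : Prop := ∀ W : ℝ, ∃ C : ℝ, 0 ≤ C ∧ ∀ (S : Sys) (R : ℕ) (f F : ℕ → ℂ), S.Ok W →
  (∀ n, ‖f n‖ ≤ 1) → S.Exps R F →
  S.E f ≤ 2 * avr S.U S.L (fun n => ‖f n - F n‖ ^ 2) +
    C * ((S.K : ℝ) ^ 2 + S.K * R) * (S.s 0 : ℝ) ^ (-(1 / 5) : ℝ)

/-! ## Frequencies -/

/-- constant frequencies have no bad quadruples -/
def T_NC0 : Prop := ∀ (N : ℕ) (κ : ℝ) (Q : Finset ℕ) (α : ℕ → ℝ) (θ : ℝ), (∀ q ∈ Q, q.Prime) →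
  (∀ q ∈ Q, q ^ 200 ≤ N) → 0 < κ → κ ≤ 1 → 1 ≤ κ ^ 2 * N → (∀ q ∈ Q, α q = θ) →
  badmass N κ Q α = 0

/-- every choice of frequencies modulo `1/q` has, up to `ε/N`, representatives with few bad
quadruples -/
def T_CLU : Prop := ∀ W ε : ℝ, 0 < ε → ∃ C : ℝ, 0 < C ∧ ∀ (N P : ℕ) (κ : ℝ) (Q : Finset ℕ)
  (β : ℕ → ℝ), (∀ q ∈ Q, q.Prime) → (∀ q ∈ Q, P ≤ q) → (∀ q ∈ Q, q ^ 200 ≤ N) →
  ∑ q ∈ Q, 1 / (q : ℝ) ≤ W → 0 < κ → κ ≤ 1 → 1 ≤ κ ^ 2 * N → C ≤ κ ^ 5 * P →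
  ∃ α : ℕ → ℝ, (∀ q ∈ Q, ∃ b : ℤ, nd (α q - β q - (b : ℝ) / q) ≤ ε / N) ∧
    badmass N κ Q α ≤ κ

end Pool.Agent.H21.BS
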